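import Pool.Agent.H.MP_14e93c_nt.C

open IsDedekindDomain

namespace Pool.Agent.Results.MP_14e93c_nt.ClassOne

/-- The form `q(x) = ∑ a_ij x_i x_j` with coefficients in `R`, evaluated over an `R`-algebra `S`. -/
def qf {R : Type} [CommRing R] {n : ℕ} (A : Matrix (Fin n) (Fin n) R) (S : Type) [CommRing S]
    [Algebra R S] (x : Fin n → S) : S :=
  ∑ i, ∑ j, algebraMap R S (A i j) * x i * x j

open Classical in
/-- The norm `|a| = card (R / aR)` for `a ≠ 0`, and `|0| = 0`. -/
noncomputable def nrm {R : Type} [CommRing R] (a : R) : ℕ :=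
  if a = 0 then 0 else Nat.card (R ⧸ Ideal.span {a})

/-- `|t| < 1` for `t ∈ K`: `t = a / b` with `|a| < |b|`. -/
def NormLtOne (R : Type) {K : Type} [CommRing R] [Field K] [Algebra R K] (t : K) : Prop :=
  ∃ a b : R, b ≠ 0 ∧ t = algebraMap R K a / algebraMap R K b ∧ nrm a < nrm b

/-- The standard lattice `L = R^n` in `K^n`. -/
def stdL (R K : Type) [CommRing R] [Field K] [Algebra R K] (n : ℕ) : Submodule R (Fin n → K) :=
  Submodule.pi Set.univ fun _ => LinearMap.range (Algebra.linearMap R K)

/-- The completion `M_v`: the `R_v`-span of `M` in `K_v^n`. -/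
noncomputable def loc {R K : Type} [CommRing R] [IsDedekindDomain R] [Field K] [Algebra R K]
    [IsFractionRing R K] {n : ℕ} (v : HeightOneSpectrum R) (M : Submodule R (Fin n → K)) :
    Submodule (v.adicCompletionIntegers K) (Fin n → v.adicCompletion K) :=
  Submodule.span (v.adicCompletionIntegers K)
    ((fun x i => algebraMap K (v.adicCompletion K) (x i)) '' (M : Set (Fin n → K)))

/-- `M` and `N`, `S`-submodules of `T^n`, are isometric: an `S`-linear bijection preserves `q`. -/
def Isom {R : Type} [CommRing R] {n : ℕ} (A : Matrix (Fin n) (Fin n) R) {S T : Type}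
    [CommRing S] [CommRing T] [Algebra R T] [Module S (Fin n → T)]
    (M N : Submodule S (Fin n → T)) : Prop :=
  ∃ e : M ≃ₗ[S] N, ∀ x : M, qf A T (e x : Fin n → T) = qf A T (x : Fin n → T)

open Pool.Agent.H.MP_14e93c_nt in
theorem result (R K : Type) [CommRing R] [IsDedekindDomain R] [Field K] [Algebra R K]
    [IsFractionRing R K] (hfin : ∀ I : Ideal R, I ≠ ⊥ → Finite (R ⧸ I))
    (n : ℕ) (A : Matrix (Fin n) (Fin n) R)
    (hani : ∀ x : Fin n → K, x ≠ 0 → qf A K x ≠ 0)
    (heuc : ∀ x : Fin n → K, ∃ y : Fin n → R,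
      NormLtOne R (qf A K (x - fun i => algebraMap R K (y i))))
    (M : Submodule R (Fin n → K)) (hM : M.IsLattice K)
    (hgen : ∀ v : HeightOneSpectrum R, Isom A (loc v M) (loc v (stdL R K n))) :
    Isom A M (stdL R K n) := by
  have hL : stdL R K n = std R K n := by
    ext x
    simp [stdL, Submodule.mem_pi, Submodule.mem_one]
  rw [hL] at hgen ⊢
  obtain ⟨e, he⟩ := main hfin A (fun x hx => by
      obtain ⟨y, a, b, hb, hab, hlt⟩ := heuc x
      have hy : (fun i => algebraMap R K (y i)) ∈ std R K n := mem_std.2 fun i => ⟨y i, rfl⟩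
      have bK : algebraMap R K b ≠ 0 :=
        fun h => hb (IsFractionRing.injective R K (by rw [h, map_zero]))
      have ha : a ≠ 0 := by
        rintro rfl
        refine hani _ (fun h => hx ?_) (by rw [hab, map_zero, zero_div])
        rwa [sub_eq_zero.1 h]
      refine ⟨_, hy, a, b, ha, hb, ?_, by simpa [nrm, ha, hb] using hlt⟩
      rw [QQ_apply]
      exact (eq_div_iff bK).1 hab)
    M hM.fg hM.span_eq_top (fun v => by
      obtain ⟨e, he⟩ := hgen v
      exact ⟨e, fun x => by rw [QQ_apply, QQ_apply]; exact he x⟩)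
  exact ⟨e, fun x => by have := he x; rwa [QQ_apply, QQ_apply] at this⟩

end Pool.Agent.Results.MP_14e93c_nt.ClassOne
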